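import Pool.Agent.H64.EP.Targets

/-!
# Module PAIR of the board ep_modules: the mixed exponential inequality tensorizes
-/

set_option autoImplicit false

open Finset
open scoped Classical
open Pool.Agent.H64.EP

namespace Pool.Agent.H50.EP.PAIR

theorem avg_mono {α : Type} [Fintype α] {f g : α → ℝ} (h : ∀ a, f a ≤ g a) :
    avg f ≤ avg g := by
  unfold avg
  gcongr with a
  exact h a

theorem avg_right {α β : Type} [Fintype α] [Fintype β] (f : α × β → ℝ) :
    avg f = avg (fun b => avg (fun a => f (a, b))) := by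
  unfold avg
  rw [Fintype.sum_prod_type_right, Fintype.card_prod, ← Finset.sum_div, div_div]
  push_cast
  rfl

theorem avg_left {α β : Type} [Fintype α] [Fintype β] (f : α × β → ℝ) :
    avg f = avg (fun a => avg (fun b => f (a, b))) := by
  unfold avg
  rw [Fintype.sum_prod_type, Fintype.card_prod, ← Finset.sum_div, div_div]
  push_cast
  rw [mul_comm]

theorem prod_avg {ι α : Type} [Fintype ι] [Fintype α] (f : ι → α → ℝ) :
    ∏ i, avg (f i) = avg (fun xx : ι → α => ∏ i, f i (xx i)) := by
  unfold avg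
  rw [Finset.prod_div_distrib, Finset.prod_univ_sum, Fintype.piFinset_univ]
  simp [Fintype.card_pi]

theorem avg_pow_le {X β : Type} [Fintype X] [Nonempty X] [Fintype β] [Nonempty β] (r : ℕ)
    (G : X → β → ℝ) (M : X → ℝ) (hG : ∀ x b, 0 ≤ G x b) (hM : ∀ x, 0 < M x)
    (h : ∀ x, avg (fun b => G x b ^ r) ≤ M x ^ r) :
    avg (fun b => (avg (fun x => G x b)) ^ r) ≤ (avg M) ^ r := by
  have hS : 0 < ∑ x, M x := Finset.sum_pos (fun x _ => hM x) Finset.univ_nonempty
  have hcX : (0 : ℝ) < Fintype.card X := by exact_mod_cast Fintype.card_pos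
  have hcβ : (0 : ℝ) < Fintype.card β := by exact_mod_cast Fintype.card_pos
  set S : ℝ := ∑ x, M x with hSdef
  -- pointwise
  have h1 : ∀ b, (∑ x, G x b) ^ r ≤ S ^ r * ∑ x, M x / S * (G x b / M x) ^ r := by
    intro b
    have e1 : ∑ x, G x b = S * ∑ x, M x / S * (G x b / M x) := by
      rw [Finset.mul_sum]
      refine Finset.sum_congr rfl fun x _ => ?_
      have := (hM x).ne'
      field_simp
    rw [e1, mul_pow]
    refine mul_le_mul_of_nonneg_left ?_ (pow_nonneg hS.le r)
    refine Real.pow_arith_mean_le_arith_mean_pow _ _ _ (fun x _ => ?_) ?_ (fun x _ => ?_) r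
    · exact div_nonneg (hM x).le hS.le
    · rw [← Finset.sum_div, div_self hS.ne']
    · exact div_nonneg (hG x b) (hM x).le
  have h2 : ∑ b, (∑ x, G x b) ^ r ≤ S ^ r * Fintype.card β := by
    calc ∑ b, (∑ x, G x b) ^ r ≤ ∑ b, S ^ r * ∑ x, M x / S * (G x b / M x) ^ r :=
          Finset.sum_le_sum fun b _ => h1 b
      _ = S ^ r * ∑ x, M x / S * ((∑ b, G x b ^ r) / M x ^ r) := by
          rw [← Finset.mul_sum, Finset.sum_comm]
          congr 1
          refine Finset.sum_congr rfl fun x _ => ?_
          rw [Finset.sum_div, Finset.mul_sum]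
          refine Finset.sum_congr rfl fun b _ => ?_
          rw [div_pow]
      _ ≤ S ^ r * ∑ x, M x / S * (Fintype.card β : ℝ) := by
          refine mul_le_mul_of_nonneg_left (Finset.sum_le_sum fun x _ => ?_) (pow_nonneg hS.le r)
          refine mul_le_mul_of_nonneg_left ?_ (div_nonneg (hM x).le hS.le)
          have h3 := h x
          unfold avg at h3
          rw [div_le_iff₀ hcβ] at h3
          rw [div_le_iff₀ (pow_pos (hM x) r)]
          linarith
      _ = S ^ r * Fintype.card β := by
          rw [← Finset.sum_mul, ← Finset.sum_div, div_self hS.ne', one_mul]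
  unfold avg
  simp only [div_pow]
  rw [← Finset.sum_div, div_div, div_le_div_iff₀ (by positivity) (by positivity)]
  calc (∑ b, (∑ x, G x b) ^ r) * (Fintype.card X : ℝ) ^ r
      ≤ (S ^ r * Fintype.card β) * (Fintype.card X : ℝ) ^ r :=
        mul_le_mul_of_nonneg_right h2 (by positivity)
    _ = S ^ r * ((Fintype.card X : ℝ) ^ r * Fintype.card β) := by ring

theorem pf_PAIR : T_PAIR := by
  intro ι α β _ _ _ _ _ r K K' hr hK hK' hI hI' φ hφ
  -- the inner functions
  have hψ : ∀ b : β, ∀ i x, -1 ≤ ∑ y, K' i b y * φ i (x, y) ∧ ∑ y, K' i b y * φ i (x, y) ≤ 0 := by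
    intro b i x
    constructor
    · calc (-1 : ℝ) = ∑ y, K' i b y * (-1) := by rw [← Finset.sum_mul, hK'.2 i b]; ring
        _ ≤ _ := Finset.sum_le_sum fun y _ =>
          mul_le_mul_of_nonneg_left (hφ i (x, y)).1 (hK'.1 i b y)
    · refine Finset.sum_nonpos fun y _ => ?_
      exact mul_nonpos_of_nonneg_of_nonpos (hK'.1 i b y) (hφ i (x, y)).2
  let G : (ι → α) → β → ℝ := fun xx b => Real.exp (∑ i, ∑ y, K' i b y * φ i (xx i, y))
  let M : (ι → α) → ℝ := fun xx => ∏ i, avg (fun y => Real.exp (φ i (xx i, y)))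
  have hMpos : ∀ xx, 0 < M xx := by
    intro xx
    refine Finset.prod_pos fun i _ => ?_
    unfold avg
    refine div_pos (Finset.sum_pos (fun y _ => Real.exp_pos _) Finset.univ_nonempty) ?_
    exact_mod_cast Fintype.card_pos
  have hGM : ∀ xx, avg (fun b => G xx b ^ r) ≤ M xx ^ r := by
    intro xx
    have h1 := hI' (fun i y => φ i (xx i, y)) (fun i y => hφ i (xx i, y))
    refine le_trans (le_of_eq ?_) h1
    congr 1
    funext b
    simp only [G]
    rw [← Real.exp_nat_mul]
  have step1 : avg (fun z : α × β => Real.exp (r * ∑ i, ∑ x : α × β,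
      K i z.1 x.1 * K' i z.2 x.2 * φ i x)) ≤ avg (fun b => (avg (fun xx => G xx b)) ^ r) := by
    rw [avg_right]
    refine avg_mono fun b => ?_
    have h1 := hI (fun i x => ∑ y, K' i b y * φ i (x, y)) (hψ b)
    have e1 : (fun a => Real.exp (r * ∑ i, ∑ x : α × β, K i a x.1 * K' i b x.2 * φ i x)) =
        fun a => Real.exp (r * ∑ i, ∑ x, K i a x * ∑ y, K' i b y * φ i (x, y)) := by
      funext a
      congr 2
      refine Finset.sum_congr rfl fun i _ => ?_
      rw [Fintype.sum_prod_type]
      refine Finset.sum_congr rfl fun x _ => ?_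
      rw [Finset.mul_sum]
      refine Finset.sum_congr rfl fun y _ => ?_
      ring
    have e2 : avg (fun xx => G xx b) =
        ∏ i, avg (fun x => Real.exp (∑ y, K' i b y * φ i (x, y))) := by
      rw [prod_avg]
      congr 1
      funext xx
      simp only [G]
      rw [Real.exp_sum]
    simp only
    rw [e1, e2]
    exact h1
  have step2 := avg_pow_le r G M (fun xx b => (Real.exp_pos _).le) hMpos hGM
  refine le_trans step1 (le_trans step2 (le_of_eq ?_))
  congr 1
  have e3 : ∀ i, avg (fun x : α × β => Real.exp (φ i x)) =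
      avg (fun x => avg (fun y => Real.exp (φ i (x, y)))) := fun i => avg_left _
  simp only [e3]
  rw [prod_avg]

end Pool.Agent.H50.EP.PAIR
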